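import Pool.Agent.H295R2.Nic.Defs
import Pool.Agent.H305R2.MertensE

/-!
# N11: the two-sided bound for Nicolas' function

`theorem nicUp : ThetaB → NicUp`: partial summation between `y` and `z → ∞`, the constant being
given by the third theorem of Mertens.
-/

set_option autoImplicit false

open MeasureTheory Filter Topology Set

namespace Pool.Agent.H804R2.Nic

open Pool.Agent.H295R2 Pool.Agent.H295R2.Nic

noncomputable section

/-- `1/(t log t)` -/
def gg (t : ℝ) : ℝ := (t * Real.log t)⁻¹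

/-- minus the derivative of `gg` -/
def gd (t : ℝ) : ℝ := (Real.log t + 1) / (t * Real.log t) ^ 2

lemma gg_hasDerivAt {t : ℝ} (ht : 1 < t) : HasDerivAt gg (-gd t) t := by
  have h0 : t ≠ 0 := by linarith
  have hl : 0 < Real.log t := Real.log_pos ht
  have h1 : HasDerivAt (fun s => s * Real.log s) (1 * Real.log t + t * t⁻¹) t :=
    (hasDerivAt_id t).mul (Real.hasDerivAt_log h0)
  have h2 : HasDerivAt gg (-(1 * Real.log t + t * t⁻¹) / (t * Real.log t) ^ 2) t :=
    h1.inv (mul_ne_zero h0 hl.ne')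
  have h3 : (-(1 * Real.log t + t * t⁻¹) / (t * Real.log t) ^ 2) = -gd t := by
    unfold gd
    rw [mul_inv_cancel₀ h0, one_mul, neg_div]
  rwa [h3] at h2

lemma gd_continuousAt {t : ℝ} (ht : 1 < t) : ContinuousAt gd t := by
  have h0 : t ≠ 0 := by linarith
  have hl : 0 < Real.log t := Real.log_pos ht
  unfold gd
  have h1 : ContinuousAt Real.log t := Real.continuousAt_log h0
  exact (h1.add continuousAt_const).div ((continuousAt_id.mul h1).pow 2)
    (pow_ne_zero 2 (mul_ne_zero h0 hl.ne'))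

lemma gd_continuousOn {y z : ℝ} (hy : 2 ≤ y) : ContinuousOn gd (Icc y z) := fun t ht =>
  (gd_continuousAt (by linarith [ht.1])).continuousWithinAt

lemma log_two_le {t : ℝ} (ht : 2 ≤ t) : 0.693 ≤ Real.log t := by
  have h1 := Real.log_two_gt_d9
  have h2 : Real.log 2 ≤ Real.log t := Real.log_le_log (by norm_num) ht
  linarith

lemma gd_nonneg {t : ℝ} (ht : 2 ≤ t) : 0 ≤ gd t := by
  unfold gd
  have := log_two_le ht
  positivity

lemma gd_le {t : ℝ} (ht : 2 ≤ t) : gd t ≤ 4 / t ^ 2 := by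
  unfold gd
  have h1 := log_two_le ht
  have h2 : 0 < Real.log t := by linarith
  rw [div_le_div_iff₀ (by positivity) (by positivity)]
  have h3 : Real.log t + 1 ≤ 4 * Real.log t ^ 2 := by nlinarith
  calc (Real.log t + 1) * t ^ 2 ≤ (4 * Real.log t ^ 2) * t ^ 2 :=
        mul_le_mul_of_nonneg_right h3 (by positivity)
    _ = 4 * (t * Real.log t) ^ 2 := by ring

lemma gg_nonneg {t : ℝ} (ht : 2 ≤ t) : 0 ≤ gg t := by
  unfold gg
  have := log_two_le ht
  positivity

lemma gg_le {t : ℝ} (ht : 2 ≤ t) : gg t ≤ 2 / t := by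
  unfold gg
  have h1 := log_two_le ht
  have h2 : 0 < Real.log t := by linarith
  rw [inv_eq_one_div, div_le_div_iff₀ (by positivity) (by positivity)]
  nlinarith

/-- Abel summation. -/
lemma abel {y z : ℝ} (hy : 2 ≤ y) (hyz : y ≤ z) :
    ∑ p ∈ (Finset.Ioc ⌊y⌋₊ ⌊z⌋₊).filter Nat.Prime, 1 / (p : ℝ) =
      gg z * Chebyshev.theta z - gg y * Chebyshev.theta y +
        ∫ t in y..z, Chebyshev.theta t * gd t := by
  let c : ℕ → ℝ := fun n => if n.Prime then Real.log n else 0
  have hθ : ∀ t : ℝ, ∑ k ∈ Finset.Icc 0 ⌊t⌋₊, c k = Chebyshev.theta t := by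
    intro t
    rw [Chebyshev.theta_eq_sum_Icc, Finset.sum_filter]
  have hd : ∀ t ∈ Icc y z, HasDerivAt gg (-gd t) t := fun t ht =>
    gg_hasDerivAt (by linarith [ht.1])
  have hderiv : ∀ t ∈ Icc y z, deriv gg t = -gd t := fun t ht => (hd t ht).deriv
  have hint : IntegrableOn (deriv gg) (Icc y z) := by
    have h1 : IntegrableOn (fun t => -gd t) (Icc y z) :=
      (gd_continuousOn hy).neg.integrableOn_Icc
    exact h1.congr_fun (fun t ht => (hderiv t ht).symm) measurableSet_Icc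
  have h := sum_mul_eq_sub_sub_integral_mul c (f := gg) (by linarith) hyz
    (fun t ht => (hd t ht).differentiableAt) hint
  simp only [hθ] at h
  have h2 : ∑ k ∈ Finset.Ioc ⌊y⌋₊ ⌊z⌋₊, gg k * c k =
      ∑ p ∈ (Finset.Ioc ⌊y⌋₊ ⌊z⌋₊).filter Nat.Prime, 1 / (p : ℝ) := by
    rw [Finset.sum_filter]
    refine Finset.sum_congr rfl fun k _ => ?_
    by_cases hk : k.Prime
    · have h3 : (1 : ℝ) < k := by exact_mod_cast hk.one_lt
      have h4 : 0 < Real.log k := Real.log_pos h3
      have h5 : (k : ℝ) ≠ 0 := by linarith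
      simp only [c, hk, if_true, gg]
      field_simp
    · simp [c, hk]
  rw [← h2, h, intervalIntegral.integral_of_le hyz, sub_eq_add_neg, ← integral_neg]
  congr 1
  refine setIntegral_congr_fun measurableSet_Ioc fun t ht => ?_
  rw [hderiv t ⟨ht.1.le, ht.2⟩]
  ring

/-- the smooth part -/
lemma smooth {y z : ℝ} (hy : 2 ≤ y) (hyz : y ≤ z) :
    Real.log (Real.log z) - Real.log (Real.log y) =
      gg z * z - gg y * y + ∫ t in y..z, t * gd t := by
  have hd : ∀ t ∈ uIcc y z, HasDerivAt (fun s => Real.log (Real.log s) - gg s * s) (t * gd t) t := by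
    intro t ht
    rw [uIcc_of_le hyz] at ht
    have h1 : 1 < t := by linarith [ht.1]
    have h0 : t ≠ 0 := by linarith
    have hl : 0 < Real.log t := Real.log_pos h1
    have h2 := ((Real.hasDerivAt_log h0).log hl.ne').sub ((gg_hasDerivAt h1).mul (hasDerivAt_id t))
    refine h2.congr_deriv ?_
    simp only [id, gg, gd]
    field_simp
    ring
  have hc : ContinuousOn (fun t => t * gd t) (uIcc y z) := by
    rw [uIcc_of_le hyz]
    exact continuousOn_id.mul (gd_continuousOn hy)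
  rw [intervalIntegral.integral_eq_sub_of_hasDerivAt hd hc.intervalIntegrable]
  ring

lemma theta_gd_int {y z : ℝ} (hy : 2 ≤ y) (hyz : y ≤ z) :
    IntervalIntegrable (fun t => Chebyshev.theta t * gd t) volume y z := by
  have h1 : IntervalIntegrable Chebyshev.theta volume y z :=
    (Chebyshev.theta_mono.monotoneOn _).intervalIntegrable
  refine h1.mul_continuousOn ?_
  rw [uIcc_of_le hyz]
  exact gd_continuousOn hy

lemma rpow_int {a y z : ℝ} (ha : a < 1) (hy : 0 < y) (hyz : y ≤ z) :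
    ∫ t in y..z, t ^ (a - 2) ≤ y ^ (a - 1) / (1 - a) := by
  rw [integral_rpow (Or.inr ⟨by linarith, ?_⟩)]
  · have h1 : a - 2 + 1 = a - 1 := by ring
    rw [h1]
    have h2 : (z ^ (a - 1) - y ^ (a - 1)) / (a - 1) = (y ^ (a - 1) - z ^ (a - 1)) / (1 - a) := by
      rw [← neg_div_neg_eq]
      congr 1 <;> ring
    rw [h2]
    have h3 : 0 ≤ z ^ (a - 1) := Real.rpow_nonneg (by linarith) _
    exact div_le_div_of_nonneg_right (by linarith) (by linarith)
  · rw [uIcc_of_le hyz]
    intro h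
    linarith [h.1]

lemma rpow_sub_one {a t : ℝ} (ht : 0 < t) : t ^ a / t = t ^ (a - 1) := by
  rw [Real.rpow_sub ht, Real.rpow_one]

/-- `∑ 1/p` between `y` and `z`. -/
lemma recip_bound {a C y z : ℝ} (ha : a < 1) (hC0 : 0 ≤ C)
    (hC : ∀ x : ℝ, 1 ≤ x → |Chebyshev.theta x - x| ≤ C * x ^ a) (hy : 2 ≤ y) (hyz : y ≤ z) :
    |∑ p ∈ (Finset.Ioc ⌊y⌋₊ ⌊z⌋₊).filter Nat.Prime, 1 / (p : ℝ) -
      (Real.log (Real.log z) - Real.log (Real.log y))| ≤
        (4 * C + 4 * C / (1 - a)) * y ^ (a - 1) := by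
  have hy0 : 0 < y := by linarith
  have hz0 : 0 < z := by linarith
  have hII : IntervalIntegrable (fun t => t * gd t) volume y z := by
    apply ContinuousOn.intervalIntegrable
    rw [uIcc_of_le hyz]
    exact continuousOn_id.mul (gd_continuousOn hy)
  have hI : (∫ t in y..z, Chebyshev.theta t * gd t) - ∫ t in y..z, t * gd t =
      ∫ t in y..z, (Chebyshev.theta t * gd t - t * gd t) :=
    (intervalIntegral.integral_sub (theta_gd_int hy hyz) hII).symm
  have hb : ‖∫ t in y..z, (Chebyshev.theta t * gd t - t * gd t)‖ ≤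
      ∫ t in y..z, 4 * C * t ^ (a - 2) := by
    refine intervalIntegral.norm_integral_le_of_norm_le hyz ?_ ?_
    · refine Filter.Eventually.of_forall fun t ht => ?_
      have ht2 : 2 ≤ t := by linarith [ht.1]
      have ht0 : 0 < t := by linarith
      have h1 := hC t (by linarith)
      have h2 := gd_le ht2
      have h3 := gd_nonneg ht2
      rw [← sub_mul, norm_mul, Real.norm_eq_abs, Real.norm_eq_abs, abs_of_nonneg h3]
      calc |Chebyshev.theta t - t| * gd t ≤ (C * t ^ a) * (4 / t ^ 2) :=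
            mul_le_mul h1 h2 h3 (by positivity)
        _ = 4 * C * (t ^ a / t ^ (2 : ℕ)) := by ring
        _ = 4 * C * t ^ (a - 2) := by
            rw [Real.rpow_sub ht0, Real.rpow_two]
    · apply ContinuousOn.intervalIntegrable
      rw [uIcc_of_le hyz]
      intro t ht
      have ht0 : t ≠ 0 := by linarith [ht.1]
      exact ((Real.continuousAt_rpow_const t (a - 2) (Or.inl ht0)).const_mul
        (4 * C)).continuousWithinAt
  rw [intervalIntegral.integral_const_mul, Real.norm_eq_abs] at hb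
  have hb2 := mul_le_mul_of_nonneg_left (rpow_int ha hy0 hyz) (by positivity : 0 ≤ 4 * C)
  have hzb : |gg z * (Chebyshev.theta z - z)| ≤ 2 * C * y ^ (a - 1) := by
    have h1 := hC z (by linarith)
    have h2 := gg_le (show 2 ≤ z by linarith)
    have h3 := gg_nonneg (show 2 ≤ z by linarith)
    rw [abs_mul, abs_of_nonneg h3]
    calc gg z * |Chebyshev.theta z - z| ≤ (2 / z) * (C * z ^ a) :=
          mul_le_mul h2 h1 (abs_nonneg _) (by positivity)
      _ = 2 * C * (z ^ a / z) := by ring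
      _ = 2 * C * z ^ (a - 1) := by rw [rpow_sub_one hz0]
      _ ≤ 2 * C * y ^ (a - 1) := by
          apply mul_le_mul_of_nonneg_left _ (by positivity)
          exact Real.rpow_le_rpow_of_nonpos hy0 hyz (by linarith)
  have hyb : |gg y * (Chebyshev.theta y - y)| ≤ 2 * C * y ^ (a - 1) := by
    have h1 := hC y (by linarith)
    have h2 := gg_le hy
    have h3 := gg_nonneg hy
    rw [abs_mul, abs_of_nonneg h3]
    calc gg y * |Chebyshev.theta y - y| ≤ (2 / y) * (C * y ^ a) :=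
          mul_le_mul h2 h1 (abs_nonneg _) (by positivity)
      _ = 2 * C * (y ^ a / y) := by ring
      _ = 2 * C * y ^ (a - 1) := by rw [rpow_sub_one hy0]
  rw [abel hy hyz, smooth hy hyz]
  have key : gg z * Chebyshev.theta z - gg y * Chebyshev.theta y +
      (∫ t in y..z, Chebyshev.theta t * gd t) - (gg z * z - gg y * y + ∫ t in y..z, t * gd t) =
      gg z * (Chebyshev.theta z - z) - gg y * (Chebyshev.theta y - y) +
      ∫ t in y..z, (Chebyshev.theta t * gd t - t * gd t) := by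
    rw [← hI]
    ring
  rw [key]
  have h1 := abs_le.1 hb
  have h2 := abs_le.1 hzb
  have h3 := abs_le.1 hyb
  have h4 : (4 * C + 4 * C / (1 - a)) * y ^ (a - 1) = 2 * C * y ^ (a - 1) + 2 * C * y ^ (a - 1) +
      4 * C * (y ^ (a - 1) / (1 - a)) := by ring
  rw [h4, abs_le]
  constructor
  · linarith
  · linarith

/-- `0 ≤ -log(1-1/p) - 1/p ≤ 1/(p-1) - 1/p` -/
lemma f_bounds {n : ℕ} (hn : 2 ≤ n) : 0 ≤ -Real.log (1 - 1 / (n : ℝ)) - 1 / (n : ℝ) ∧
    -Real.log (1 - 1 / (n : ℝ)) - 1 / (n : ℝ) ≤ 1 / ((n : ℝ) - 1) - 1 / (n : ℝ) := by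
  have h1 : (2 : ℝ) ≤ n := by exact_mod_cast hn
  have h2 : 0 < (n : ℝ) - 1 := by linarith
  have h3 : 0 < (n : ℝ) := by linarith
  have h4 : 1 - 1 / (n : ℝ) = ((n : ℝ) - 1) / n := by field_simp
  have h5 : 0 < 1 - 1 / (n : ℝ) := by rw [h4]; positivity
  constructor
  · have := Real.log_le_sub_one_of_pos h5
    linarith
  · have h6 : -Real.log (1 - 1 / (n : ℝ)) = Real.log ((1 - 1 / (n : ℝ))⁻¹) := (Real.log_inv _).symm
    have h7 := Real.log_le_sub_one_of_pos (inv_pos.2 h5)
    have h8 : (1 - 1 / (n : ℝ))⁻¹ - 1 = 1 / ((n : ℝ) - 1) := by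
      rw [h4]
      field_simp
      ring
    rw [h6]
    linarith

lemma telescope {a b : ℕ} (hab : a ≤ b) :
    ∑ n ∈ Finset.Ioc a b, (1 / ((n : ℝ) - 1) - 1 / (n : ℝ)) = 1 / (a : ℝ) - 1 / (b : ℝ) := by
  induction b, hab using Nat.le_induction with
  | base => simp
  | succ b hb ih =>
    rw [Finset.sum_Ioc_succ_top (by omega), ih]
    push_cast
    ring

lemma MP_sub {y z : ℝ} (hyz : y ≤ z) : MP z - MP y =
    ∑ p ∈ (Finset.Ioc ⌊y⌋₊ ⌊z⌋₊).filter Nat.Prime, -Real.log (1 - 1 / (p : ℝ)) := by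
  unfold MP
  have h0 : ⌊y⌋₊ ≤ ⌊z⌋₊ := Nat.floor_le_floor hyz
  have h1 : (Finset.Icc 1 ⌊z⌋₊).filter Nat.Prime = (Finset.Icc 1 ⌊y⌋₊).filter Nat.Prime ∪
      (Finset.Ioc ⌊y⌋₊ ⌊z⌋₊).filter Nat.Prime := by
    ext n
    simp only [Finset.mem_filter, Finset.mem_Icc, Finset.mem_Ioc, Finset.mem_union]
    constructor
    · rintro ⟨⟨h2, h3⟩, h4⟩
      by_cases h5 : n ≤ ⌊y⌋₊
      · exact Or.inl ⟨⟨h2, h5⟩, h4⟩
      · exact Or.inr ⟨⟨by omega, h3⟩, h4⟩
    · rintro (⟨⟨h2, h3⟩, h4⟩ | ⟨⟨h2, h3⟩, h4⟩)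
      · exact ⟨⟨h2, by omega⟩, h4⟩
      · exact ⟨⟨by omega, h3⟩, h4⟩
  have h2 : Disjoint ((Finset.Icc 1 ⌊y⌋₊).filter Nat.Prime)
      ((Finset.Ioc ⌊y⌋₊ ⌊z⌋₊).filter Nat.Prime) := by
    rw [Finset.disjoint_left]
    intro n h3 h4
    simp only [Finset.mem_filter, Finset.mem_Icc, Finset.mem_Ioc] at h3 h4
    omega
  rw [h1, Finset.sum_union h2]
  ring

lemma MP_recip {y z : ℝ} (hy : 2 ≤ y) (hyz : y ≤ z) :
    |MP z - MP y - ∑ p ∈ (Finset.Ioc ⌊y⌋₊ ⌊z⌋₊).filter Nat.Prime, 1 / (p : ℝ)| ≤ 2 / y := by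
  have hfl : 2 ≤ ⌊y⌋₊ := Nat.le_floor (by exact_mod_cast hy)
  have hmem : ∀ n ∈ Finset.Ioc ⌊y⌋₊ ⌊z⌋₊, 2 ≤ n := by
    intro n hn
    rw [Finset.mem_Ioc] at hn
    omega
  rw [MP_sub hyz, ← Finset.sum_sub_distrib, abs_of_nonneg]
  · calc ∑ p ∈ (Finset.Ioc ⌊y⌋₊ ⌊z⌋₊).filter Nat.Prime, (-Real.log (1 - 1 / (p : ℝ)) - 1 / (p : ℝ))
        ≤ ∑ p ∈ Finset.Ioc ⌊y⌋₊ ⌊z⌋₊, (-Real.log (1 - 1 / (p : ℝ)) - 1 / (p : ℝ)) := by
          apply Finset.sum_le_sum_of_subset_of_nonneg (Finset.filter_subset _ _)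
          intro n hn _
          exact (f_bounds (hmem n hn)).1
      _ ≤ ∑ p ∈ Finset.Ioc ⌊y⌋₊ ⌊z⌋₊, (1 / ((p : ℝ) - 1) - 1 / (p : ℝ)) :=
          Finset.sum_le_sum fun n hn => (f_bounds (hmem n hn)).2
      _ = 1 / (⌊y⌋₊ : ℝ) - 1 / (⌊z⌋₊ : ℝ) := telescope (Nat.floor_le_floor hyz)
      _ ≤ 1 / (⌊y⌋₊ : ℝ) := by
          have : (0 : ℝ) ≤ 1 / (⌊z⌋₊ : ℝ) := by positivity
          linarith
      _ ≤ 2 / y := by
          have h1 : (2 : ℝ) ≤ ⌊y⌋₊ := by exact_mod_cast hfl
          have h2 : y < ⌊y⌋₊ + 1 := Nat.lt_floor_add_one y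
          rw [div_le_div_iff₀ (by linarith) (by linarith)]
          linarith
  · apply Finset.sum_nonneg
    intro n hn
    rw [Finset.mem_filter] at hn
    exact (f_bounds (hmem n hn.1)).1

/-- Mertens' third theorem for `MP`. -/
lemma MP_tendsto : Tendsto (fun N : ℕ => MP (N : ℝ) - Real.log (Real.log (N : ℝ))) atTop
    (𝓝 Real.eulerMascheroniConstant) := by
  have h1 := Pool.Agent.H305R2.mertens_three
  have h2 := h1.log (Real.exp_ne_zero _)
  rw [Real.log_exp] at h2
  refine h2.congr' ?_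
  filter_upwards [eventually_ge_atTop 3] with N hN
  have hN1 : (1 : ℝ) < N := by exact_mod_cast (by omega : 1 < N)
  have hl : 0 < Real.log N := Real.log_pos hN1
  have hpos : ∀ p ∈ (Finset.Icc 1 N).filter Nat.Prime, (0 : ℝ) < (1 - (p : ℝ)⁻¹)⁻¹ := by
    intro p hp
    rw [Finset.mem_filter] at hp
    have h3 : (1 : ℝ) < p := by exact_mod_cast hp.2.one_lt
    have h4 : (p : ℝ)⁻¹ < 1 := inv_lt_one_of_one_lt₀ h3
    exact inv_pos.2 (by linarith)
  rw [Real.log_div (Finset.prod_pos hpos).ne' hl.ne', Real.log_prod (fun p hp => (hpos p hp).ne')]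
  unfold MP
  rw [Nat.floor_natCast]
  congr 1
  refine Finset.sum_congr rfl fun p _ => ?_
  rw [Real.log_inv, one_div]

lemma MP_bound {a C : ℝ} (ha : a < 1) (hC0 : 0 ≤ C)
    (hC : ∀ x : ℝ, 1 ≤ x → |Chebyshev.theta x - x| ≤ C * x ^ a) {y : ℝ} (hy : 2 ≤ y) :
    |MP y - Real.eulerMascheroniConstant - Real.log (Real.log y)| ≤
      (4 * C + 4 * C / (1 - a)) * y ^ (a - 1) + 2 / y := by
  have h1 : Tendsto (fun N : ℕ => |MP (N : ℝ) - Real.log (Real.log (N : ℝ)) -
      (MP y - Real.log (Real.log y))|) atTop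
      (𝓝 |Real.eulerMascheroniConstant - (MP y - Real.log (Real.log y))|) :=
    (MP_tendsto.sub_const _).abs
  have h2 : |Real.eulerMascheroniConstant - (MP y - Real.log (Real.log y))| ≤
      (4 * C + 4 * C / (1 - a)) * y ^ (a - 1) + 2 / y := by
    refine le_of_tendsto h1 ?_
    filter_upwards [eventually_ge_atTop ⌈y⌉₊] with N hN
    have hyN : y ≤ (N : ℝ) := (Nat.le_ceil y).trans (by exact_mod_cast hN)
    have h3 := recip_bound ha hC0 hC hy hyN
    have h4 := MP_recip hy hyN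
    have h5 : MP (N : ℝ) - Real.log (Real.log (N : ℝ)) - (MP y - Real.log (Real.log y)) =
        (∑ p ∈ (Finset.Ioc ⌊y⌋₊ ⌊(N : ℝ)⌋₊).filter Nat.Prime, 1 / (p : ℝ) -
          (Real.log (Real.log N) - Real.log (Real.log y))) +
        (MP N - MP y - ∑ p ∈ (Finset.Ioc ⌊y⌋₊ ⌊(N : ℝ)⌋₊).filter Nat.Prime, 1 / (p : ℝ)) := by
      ring
    rw [h5]
    exact (abs_add_le _ _).trans (add_le_add h3 h4)
  rw [abs_sub_comm] at h2
  have h6 : MP y - Real.eulerMascheroniConstant - Real.log (Real.log y) =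
      MP y - Real.log (Real.log y) - Real.eulerMascheroniConstant := by ring
  rw [h6]
  exact h2

lemma theta_four {y : ℝ} (hy : 4 ≤ y) : Real.log 6 ≤ Chebyshev.theta y := by
  have h1 : Chebyshev.theta 3 ≤ Chebyshev.theta y := Chebyshev.theta_mono (by linarith)
  have h2 : Chebyshev.theta 3 = Real.log 6 := by
    rw [Chebyshev.theta_eq_log_primorial]
    have h3 : ⌊(3 : ℝ)⌋₊ = 3 := by norm_num
    rw [h3]
    have h4 : primorial 3 = 6 := by decide
    rw [h4]
    norm_num
  linarith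

lemma log_six : (1.7 : ℝ) < Real.log 6 := by
  rw [Real.lt_log_iff_exp_lt (by norm_num)]
  have h1 := Real.exp_one_lt_d9
  have h2 : Real.exp 1.7 = Real.exp 1 ^ (1.7 : ℝ) := by
    rw [← Real.exp_mul, one_mul]
  have h3 : Real.exp 1.7 ^ (10 : ℕ) < 6 ^ (10 : ℕ) := by
    rw [← Real.exp_nat_mul]
    have h4 : ((10 : ℕ) : ℝ) * 1.7 = ((17 : ℕ) : ℝ) * 1 := by norm_num
    rw [h4, Real.exp_nat_mul]
    calc Real.exp 1 ^ 17 < 2.7182818286 ^ 17 := by
          apply pow_lt_pow_left₀ h1 (Real.exp_pos _).le (by norm_num)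
      _ < 6 ^ 10 := by norm_num
  exact lt_of_pow_lt_pow_left₀ 10 (by norm_num) h3

lemma theta_lower {a C : ℝ} (ha : a < 1) (hC0 : 0 ≤ C)
    (hC : ∀ x : ℝ, 1 ≤ x → |Chebyshev.theta x - x| ≤ C * x ^ a) :
    ∃ c : ℝ, 0 < c ∧ ∀ y : ℝ, 4 ≤ y → c * y ≤ Chebyshev.theta y := by
  have h1 : Tendsto (fun y : ℝ => y ^ (-(1 - a))) atTop (𝓝 0) :=
    tendsto_rpow_neg_atTop (by linarith)
  have h2 : ∀ᶠ y : ℝ in atTop, y ^ (-(1 - a)) < 1 / (2 * (C + 1)) :=
    h1.eventually (gt_mem_nhds (by positivity))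
  obtain ⟨Y, hY⟩ := (h2.and (eventually_ge_atTop 4)).exists_forall_of_atTop
  have hY4 : 4 ≤ Y := (hY Y le_rfl).2
  refine ⟨min (1 / 2) (1.7 / Y), by positivity, fun y hy => ?_⟩
  have hy0 : 0 < y := by linarith
  rcases le_or_gt Y y with h3 | h3
  · have h4 := (hY y h3).1
    have h5 := hC y (by linarith)
    have h6 : C * y ^ a ≤ y / 2 := by
      have h7 : y ^ a = y * y ^ (-(1 - a)) := by
        have h77 : -(1 - a) = a - 1 := by ring
        rw [h77, ← rpow_sub_one hy0]
        field_simp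
      rw [h7]
      have h8 : C * y ^ (-(1 - a)) ≤ (C + 1) * (1 / (2 * (C + 1))) := by
        apply mul_le_mul (by linarith) h4.le (Real.rpow_nonneg hy0.le _) (by linarith)
      have h9 : (C + 1) * (1 / (2 * (C + 1))) = 1 / 2 := by field_simp
      rw [h9] at h8
      calc C * (y * y ^ (-(1 - a))) = y * (C * y ^ (-(1 - a))) := by ring
        _ ≤ y * (1 / 2) := mul_le_mul_of_nonneg_left h8 hy0.le
        _ = y / 2 := by ring
    have h10 := (abs_le.1 h5).1
    calc min (1 / 2) (1.7 / Y) * y ≤ (1 / 2) * y :=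
          mul_le_mul_of_nonneg_right (min_le_left _ _) hy0.le
      _ ≤ Chebyshev.theta y := by linarith
  · have h4 := theta_four hy
    have h5 := log_six
    calc min (1 / 2) (1.7 / Y) * y ≤ (1.7 / Y) * Y :=
          mul_le_mul (min_le_right _ _) h3.le hy0.le (by positivity)
      _ = 1.7 := by field_simp
      _ ≤ Chebyshev.theta y := by linarith

lemma loglog_sub {u v : ℝ} (hu : 1 < u) (huv : u ≤ v) :
    0 ≤ Real.log (Real.log v) - Real.log (Real.log u) ∧
    Real.log (Real.log v) - Real.log (Real.log u) ≤ (v - u) / (u * Real.log u) := by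
  have hu0 : 0 < u := by linarith
  have hv0 : 0 < v := by linarith
  have hlu : 0 < Real.log u := Real.log_pos hu
  have hluv : Real.log u ≤ Real.log v := Real.log_le_log hu0 huv
  have hlv : 0 < Real.log v := by linarith
  constructor
  · have := Real.log_le_log hlu hluv
    linarith
  · rw [← Real.log_div hlv.ne' hlu.ne']
    have h1 := Real.log_le_sub_one_of_pos (div_pos hlv hlu)
    have h2 := Real.log_le_sub_one_of_pos (div_pos hv0 hu0)
    rw [Real.log_div hv0.ne' hu0.ne'] at h2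
    calc Real.log (Real.log v / Real.log u) ≤ Real.log v / Real.log u - 1 := h1
      _ = (Real.log v - Real.log u) / Real.log u := by field_simp
      _ ≤ (v / u - 1) / Real.log u := div_le_div_of_nonneg_right h2 hlu.le
      _ = (v - u) / (u * Real.log u) := by field_simp

/-- **N11.** -/
theorem nicUp (h : ThetaB) : NicUp := by
  intro a ha1 ha
  obtain ⟨C₀, hC₀⟩ := h a ha1
  obtain ⟨C, hC0, hC⟩ : ∃ C : ℝ, 0 ≤ C ∧
      ∀ x : ℝ, 1 ≤ x → |Chebyshev.theta x - x| ≤ C * x ^ a := by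
    refine ⟨|C₀|, abs_nonneg _, fun x hx => (hC₀ x hx).trans ?_⟩
    exact mul_le_mul_of_nonneg_right (le_abs_self _) (Real.rpow_nonneg (by linarith) _)
  have ha0 : 0 < a := by
    have := half_le_zetaSup
    linarith
  obtain ⟨c, hc0, hc⟩ := theta_lower ha hC0 hC
  refine ⟨(4 * C + 4 * C / (1 - a)) + 2 + (2 / c + 1) * C, fun y hy => ?_⟩
  have hy0 : 0 < y := by linarith
  have h1 := MP_bound ha hC0 hC (show 2 ≤ y by linarith)
  have h2 : 2 / y ≤ 2 * y ^ (a - 1) := by
    have h3 : y ^ (-1 : ℝ) ≤ y ^ (a - 1) :=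
      Real.rpow_le_rpow_of_exponent_le (by linarith) (by linarith)
    rw [Real.rpow_neg_one] at h3
    rw [div_eq_mul_inv]
    linarith
  have hθ17 : 1.7 < Chebyshev.theta y := lt_of_lt_of_le log_six (theta_four hy)
  have hlog17 : (1 / 2 : ℝ) ≤ Real.log 1.7 := by
    rw [Real.le_log_iff_exp_le (by norm_num)]
    have h3 : Real.exp (1 / 2) ^ (2 : ℕ) ≤ 1.7 ^ (2 : ℕ) := by
      rw [← Real.exp_nat_mul]
      have h4 : ((2 : ℕ) : ℝ) * (1 / 2) = 1 := by norm_num
      rw [h4]
      have := Real.exp_one_lt_d9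
      norm_num
      linarith
    exact (pow_le_pow_iff_left₀ (Real.exp_pos _).le (by norm_num) (by norm_num)).1 h3
  have hlθ : 1 / 2 ≤ Real.log (Chebyshev.theta y) :=
    hlog17.trans (Real.log_le_log (by norm_num) hθ17.le)
  have hly : 1 ≤ Real.log y := by
    rw [Real.le_log_iff_exp_le hy0]
    have := Real.exp_one_lt_d9
    linarith
  have hD := hC y (by linarith)
  have h3 : |Real.log (Real.log y) - Real.log (Real.log (Chebyshev.theta y))| ≤
      (2 / c + 1) * C * y ^ (a - 1) := by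
    have hcy := hc y hy
    have hcy0 : 0 < c * y := by positivity
    have key : |Real.log (Real.log y) - Real.log (Real.log (Chebyshev.theta y))| ≤
        |Chebyshev.theta y - y| * ((2 / c + 1) / y) := by
      rcases le_total (Chebyshev.theta y) y with h4 | h4
      · obtain ⟨h5, h6⟩ := loglog_sub (by linarith) h4
        rw [abs_of_nonneg h5, abs_sub_comm, abs_of_nonneg (by linarith)]
        have h7 : (y - Chebyshev.theta y) / (Chebyshev.theta y * Real.log (Chebyshev.theta y)) ≤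
            (y - Chebyshev.theta y) / ((c * y) * (1 / 2)) := by
          apply div_le_div_of_nonneg_left (by linarith) (by positivity)
          exact mul_le_mul hcy hlθ (by norm_num) (by linarith)
        have h8 : (y - Chebyshev.theta y) / ((c * y) * (1 / 2)) =
            (y - Chebyshev.theta y) * ((2 / c) / y) := by
          field_simp
        have h9 : (y - Chebyshev.theta y) * ((2 / c) / y) ≤
            (y - Chebyshev.theta y) * ((2 / c + 1) / y) := by
          apply mul_le_mul_of_nonneg_left _ (by linarith)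
          apply div_le_div_of_nonneg_right _ hy0.le
          linarith
        linarith
      · obtain ⟨h5, h6⟩ := loglog_sub (by linarith) h4
        rw [abs_sub_comm, abs_of_nonneg h5, abs_of_nonneg (by linarith)]
        have h7 : (Chebyshev.theta y - y) / (y * Real.log y) ≤
            (Chebyshev.theta y - y) / (y * 1) := by
          apply div_le_div_of_nonneg_left (by linarith) (by positivity)
          exact mul_le_mul_of_nonneg_left hly hy0.le
        have h8 : (Chebyshev.theta y - y) / (y * 1) = (Chebyshev.theta y - y) * (1 / y) := by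
          field_simp
        have h9 : (Chebyshev.theta y - y) * (1 / y) ≤
            (Chebyshev.theta y - y) * ((2 / c + 1) / y) := by
          apply mul_le_mul_of_nonneg_left _ (by linarith)
          apply div_le_div_of_nonneg_right _ hy0.le
          have : 0 < 2 / c := by positivity
          linarith
        linarith
    calc |Real.log (Real.log y) - Real.log (Real.log (Chebyshev.theta y))|
        ≤ |Chebyshev.theta y - y| * ((2 / c + 1) / y) := key
      _ ≤ (C * y ^ a) * ((2 / c + 1) / y) := mul_le_mul_of_nonneg_right hD (by positivity)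
      _ = (2 / c + 1) * C * (y ^ a / y) := by ring
      _ = (2 / c + 1) * C * y ^ (a - 1) := by rw [rpow_sub_one hy0]
  have h4 : fN y = (MP y - Real.eulerMascheroniConstant - Real.log (Real.log y)) +
      (Real.log (Real.log y) - Real.log (Real.log (Chebyshev.theta y))) := by
    unfold fN
    ring
  rw [h4]
  calc |(MP y - Real.eulerMascheroniConstant - Real.log (Real.log y)) +
      (Real.log (Real.log y) - Real.log (Real.log (Chebyshev.theta y)))|
      ≤ _ := abs_add_le _ _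
    _ ≤ ((4 * C + 4 * C / (1 - a)) * y ^ (a - 1) + 2 * y ^ (a - 1)) +
        (2 / c + 1) * C * y ^ (a - 1) := add_le_add (h1.trans (by linarith)) h3
    _ = _ := by ring

end

end Pool.Agent.H804R2.Nic
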